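import Pool.Agent.Helper11.PV.St2
import Pool.Agent.Helper24.PV.M_PTW

/-!
# Project PV, part 2, module PT2

The inequality for one `p`, with the information on the number `l` kept: the same `l` is the one of the comparison of
the chromatic number with the leftover functional. Adapted from the module PTW, whose lemmas are used.
-/

set_option autoImplicit false

namespace Pool.Agent.Helper40.PV

open Finset Filter MeasureTheory Pool.Agent.Helper82.CN Pool.Agent.Helper11.PV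
open Pool.Agent.Helper24.PV (dd01 infl)

/-- MODULE PT2. -/
theorem tPT2 (hLLG : StLLG) (hPIV : StPIV) (hSYM : StSYM) (hINF : StINF) (hCMP : StCMP) :
    Pool.Agent.Helper11.PV.StPT2 := by
  intro p₀ p₁ hp0 hp01 hp1
  obtain ⟨c, hc, n₁, hn₁⟩ := hCMP p₁ (hp0.trans hp01) hp1
  obtain ⟨n₂, hn₂⟩ := hINF p₀ p₁ hp0 hp01 hp1
  refine ⟨48 / c ^ 2 + 4, by positivity, max (max n₁ n₂) 2, fun n hn => ?_⟩
  have hn1 : n₁ ≤ n := (le_max_left _ _).trans ((le_max_left _ _).trans hn)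
  have hn2 : n₂ ≤ n := (le_max_right _ _).trans ((le_max_left _ _).trans hn)
  have hn3 : 2 ≤ n := (le_max_right _ _).trans hn
  obtain ⟨l, hl1, hcl, hcmp⟩ := hn₁ n hn1
  refine ⟨l, hl1, fun p hp hpp => ?_, hcmp⟩
  have hpos : 0 < p := lt_of_lt_of_le hp0 hp
  have hlt : p < 1 := lt_of_le_of_lt hpp hp1
  have hnR : (2 : ℝ) ≤ n := by exact_mod_cast hn3
  have hn0 : (0 : ℝ) < n := by linarith
  have hlog : 0 < Real.log n := Real.log_pos (by linarith)
  have hl : (0 : ℝ) < l := by exact_mod_cast hl1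
  set I := II l n p with hI
  have hI0 : 0 ≤ I := by
    rw [hI]
    unfold II
    exact sum_nonneg fun e _ => EE_nonneg hpos.le hlt.le fun ω => (dd01 hPIV n l e ω).2.2
  obtain ⟨a, ha1, ha2⟩ := infl hPIV hSYM p n l hn3
  rw [← hI] at ha1 ha2
  -- the size of a single influence
  have hM : (n : ℝ) ^ 2 / 4 ≤ ((n.choose 2 : ℕ) : ℝ) := by
    rw [Nat.cast_choose_two]
    nlinarith
  have hM0 : (0 : ℝ) < ((n.choose 2 : ℕ) : ℝ) := lt_of_lt_of_le (by positivity) hM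
  have ha0 : 0 ≤ a := by
    by_contra h
    push Not at h
    nlinarith
  have hIle : I ≤ (n : ℝ) ^ ((7 : ℝ) / 4) / 4 := hn₂ n l p hn2 hp hpp
  have haM : a * ((n : ℝ) ^ 2 / 4) ≤ (n : ℝ) ^ ((7 : ℝ) / 4) / 4 := by
    calc a * ((n : ℝ) ^ 2 / 4) ≤ a * ((n.choose 2 : ℕ) : ℝ) := mul_le_mul_of_nonneg_left hM ha0
      _ = I := ha1
      _ ≤ _ := hIle
  have hsa : (n : ℝ) ^ ((1 : ℝ) / 8) * a ≤ 1 := by
    have h1 : (n : ℝ) ^ 2 = (n : ℝ) ^ ((7 : ℝ) / 4) * (n : ℝ) ^ ((1 : ℝ) / 4) := by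
      rw [← Real.rpow_add hn0, ← Real.rpow_natCast]
      norm_num
    have h2 : 0 < (n : ℝ) ^ ((7 : ℝ) / 4) := Real.rpow_pos_of_pos hn0 _
    have h3 : a * (n : ℝ) ^ ((1 : ℝ) / 4) ≤ 1 := by
      rw [h1] at haM
      have h4 : (n : ℝ) ^ ((7 : ℝ) / 4) * (a * (n : ℝ) ^ ((1 : ℝ) / 4)) ≤
          (n : ℝ) ^ ((7 : ℝ) / 4) * 1 := by nlinarith
      exact le_of_mul_le_mul_left h4 h2
    have h5 : (n : ℝ) ^ ((1 : ℝ) / 8) ≤ (n : ℝ) ^ ((1 : ℝ) / 4) :=
      Real.rpow_le_rpow_of_exponent_le (by linarith) (by norm_num)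
    calc (n : ℝ) ^ ((1 : ℝ) / 8) * a ≤ (n : ℝ) ^ ((1 : ℝ) / 4) * a :=
          mul_le_mul_of_nonneg_right h5 ha0
      _ ≤ 1 := by rw [mul_comm]; exact h3
  -- the variance of the leftover functional
  have hV : VV p (PH l : (Sym2 (Fin n) → Bool) → ℝ) ≤ 24 * I / Real.log n := by
    have h1 := hLLG p (Sym2 (Fin n)) (PH l) ((n : ℝ) ^ ((1 : ℝ) / 8)) hpos hlt
      (Real.rpow_pos_of_pos hn0 _)
    have h2 : ∀ e : Sym2 (Fin n), EE p (fun ω => |DD (PH l) e ω|) = EE p (DD (PH l) e) := by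
      intro e
      congr 1
      funext ω
      exact (dd01 hPIV n l e ω).1
    have h3 : ∀ e : Sym2 (Fin n), EE p (fun ω => DD (PH l) e ω ^ 2) = EE p (DD (PH l) e) := by
      intro e
      congr 1
      funext ω
      exact (dd01 hPIV n l e ω).2.1
    simp only [h2, h3] at h1
    rw [ha2] at h1
    have h4 : ∑ e : Sym2 (Fin n), EE p (DD (PH l) e) = I := rfl
    rw [h4, Real.log_rpow hn0] at h1
    have h5 : 0 ≤ VV p (PH l : (Sym2 (Fin n) → Bool) → ℝ) := by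
      unfold VV
      exact EE_nonneg hpos.le hlt.le fun ω => sq_nonneg _
    have h6 : (n : ℝ) ^ ((1 : ℝ) / 8) * (a * I) ≤ I := by
      calc (n : ℝ) ^ ((1 : ℝ) / 8) * (a * I) = ((n : ℝ) ^ ((1 : ℝ) / 8) * a) * I := by ring
        _ ≤ 1 * I := mul_le_mul_of_nonneg_right hsa hI0
        _ = I := one_mul I
    rw [le_div_iff₀ hlog]
    nlinarith
  -- conclusion
  have h1 : vn p n ≤ 2 * (EE p (fun ω : Sym2 (Fin n) → Bool =>
      ((l : ℝ) * ch (gr ω) - PH l ω) ^ 2) / (l : ℝ) ^ 2) +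
      2 * (VV p (PH l : (Sym2 (Fin n) → Bool) → ℝ) / (l : ℝ) ^ 2) := by
    refine (Pool.Agent.Helper24.PV.vn_le p n (EE p (PH l : (Sym2 (Fin n) → Bool) → ℝ) / l)).trans ?_
    have h2 : ∀ ω : Sym2 (Fin n) → Bool,
        (ch (gr ω) - EE p (PH l : (Sym2 (Fin n) → Bool) → ℝ) / l) ^ 2 ≤
        (2 / (l : ℝ) ^ 2) * ((l : ℝ) * ch (gr ω) - PH l ω) ^ 2 +
        (2 / (l : ℝ) ^ 2) * (PH l ω - EE p (PH l : (Sym2 (Fin n) → Bool) → ℝ)) ^ 2 := by
      intro ω
      set x := ch (gr ω)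
      set f := PH l ω
      set m := EE p (PH l : (Sym2 (Fin n) → Bool) → ℝ)
      have h3 : x - m / l = (l * x - f) / l + (f - m) / l := by
        field_simp
        ring
      have h4 : (2 / (l : ℝ) ^ 2) * (l * x - f) ^ 2 = 2 * ((l * x - f) / l) ^ 2 := by
        rw [div_pow]
        ring
      have h5 : (2 / (l : ℝ) ^ 2) * (f - m) ^ 2 = 2 * ((f - m) / l) ^ 2 := by
        rw [div_pow]
        ring
      rw [h3, h4, h5]
      nlinarith [sq_nonneg ((l * x - f) / l - (f - m) / l)]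
    refine (EE_mono hpos.le hlt.le h2).trans ?_
    rw [EE_add, EE_mul_left, EE_mul_left]
    unfold VV
    apply le_of_eq
    ring
  have h2 : EE p (fun ω : Sym2 (Fin n) → Bool =>
      ((l : ℝ) * ch (gr ω) - PH l ω) ^ 2) / (l : ℝ) ^ 2 ≤ 2 * √(n : ℝ) := by
    rw [div_le_iff₀ (by positivity)]
    have := hcmp p hpos.le hpp
    linarith
  have h3 : VV p (PH l : (Sym2 (Fin n) → Bool) → ℝ) / (l : ℝ) ^ 2 ≤
      24 * I / (c ^ 2 * Real.log n ^ 3) := by
    have h4 : c ^ 2 * Real.log n ^ 2 ≤ (l : ℝ) ^ 2 := by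
      rw [← mul_pow]
      exact pow_le_pow_left₀ (by positivity) hcl 2
    calc VV p (PH l : (Sym2 (Fin n) → Bool) → ℝ) / (l : ℝ) ^ 2
        ≤ (24 * I / Real.log n) / (l : ℝ) ^ 2 := div_le_div_of_nonneg_right hV (by positivity)
      _ ≤ (24 * I / Real.log n) / (c ^ 2 * Real.log n ^ 2) :=
          div_le_div_of_nonneg_left (by positivity) (by positivity) h4
      _ = 24 * I / (c ^ 2 * Real.log n ^ 3) := by
          field_simp
  have h4 : 2 * (24 * I / (c ^ 2 * Real.log n ^ 3)) = 48 / c ^ 2 / Real.log n ^ 3 * I := by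
    field_simp
    ring
  have h5 : 48 / c ^ 2 / Real.log n ^ 3 * I ≤ (48 / c ^ 2 + 4) / Real.log n ^ 3 * I := by
    refine mul_le_mul_of_nonneg_right ?_ hI0
    exact div_le_div_of_nonneg_right (by linarith) (by positivity)
  have h6 : 4 * √(n : ℝ) ≤ (48 / c ^ 2 + 4) * √(n : ℝ) := by
    refine mul_le_mul_of_nonneg_right ?_ (Real.sqrt_nonneg _)
    have : 0 ≤ 48 / c ^ 2 := by positivity
    linarith
  linarith

end Pool.Agent.Helper40.PV
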