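import Pool.Agent.Helper11.PV.St

/-!
# Project PV, module AVG: the average of the variance over `p`

The bound for a single `p`, the budget for the total influence, and the trivial bound `n ^ 2` for small `n`.
-/

set_option autoImplicit false

namespace Pool.Agent.Helper40.PV

open Finset Pool.Agent.Helper82.CN Pool.Agent.Helper11.PV

/-- The weight of one bit is continuous in `p`. -/
theorem bw_cont (b : Bool) : Continuous fun p : ℝ => bw p b := by
  unfold bw
  cases b
  · have h : Continuous fun p : ℝ => 1 - p := continuous_const.sub continuous_id'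
    simpa using h
  · have h : Continuous fun p : ℝ => p := continuous_id'
    simpa using h

/-- The expectation is continuous in `p`. -/
theorem EE_cont {ι : Type} [Fintype ι] [DecidableEq ι] {F : ℝ → (ι → Bool) → ℝ}
    (hF : ∀ ω, Continuous fun p : ℝ => F p ω) : Continuous fun p : ℝ => EE p (F p) := by
  unfold EE
  exact continuous_finsetSum _ fun ω _ =>
    (continuous_finsetProd _ fun i _ => bw_cont (ω i)).mul (hF ω)

/-- The variance of the chromatic number is continuous in `p`. -/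
theorem vn_cont (n : ℕ) : Continuous fun p : ℝ => vn p n := by
  unfold vn
  refine EE_cont fun ω => ?_
  refine (continuous_const.sub ?_).pow 2
  unfold fn
  exact EE_cont fun ω => continuous_const

/-- The total influence is continuous in `p`. -/
theorem II_cont (l n : ℕ) : Continuous fun p : ℝ => II l n p := by
  unfold II
  exact continuous_finsetSum _ fun e _ => EE_cont fun ω => continuous_const

/-- The chromatic number of a graph with `n` vertices is at most `n`. -/
theorem ch_le (n : ℕ) (G : SimpleGraph (Fin n)) : ch G ≤ n := by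
  unfold ch
  have h := (SimpleGraph.colorable_of_fintype G).chromaticNumber_le
  rw [Fintype.card_fin] at h
  exact_mod_cast ENat.toNat_le_of_le_natCast h

/-- The trivial bound for the variance. -/
theorem vn_le {p : ℝ} (h0 : 0 ≤ p) (h1 : p ≤ 1) (n : ℕ) : vn p n ≤ (n : ℝ) ^ 2 := by
  have hc0 : ∀ ω : Sym2 (Fin n) → Bool, (0 : ℝ) ≤ ch (gr ω) := fun ω => Nat.cast_nonneg _
  have hf0 : 0 ≤ fn p n := EE_nonneg h0 h1 hc0
  have hf1 : fn p n ≤ n := by
    have h := EE_mono h0 h1 (F := fun ω : Sym2 (Fin n) → Bool => ch (gr ω))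
      (G := fun _ => (n : ℝ)) fun ω => ch_le n _
    rwa [EE_const] at h
  have h := EE_mono h0 h1 (F := fun ω : Sym2 (Fin n) → Bool => (ch (gr ω) - fn p n) ^ 2)
    (G := fun _ => (n : ℝ) ^ 2) fun ω => by
      refine sq_le_sq' ?_ ?_
      · have := hc0 ω; linarith
      · have := ch_le n (gr ω); linarith
  rw [EE_const] at h
  exact h

/-- The cube of the logarithm is at most `216` times the square root. -/
theorem log_cube {x : ℝ} (hx : 1 ≤ x) : Real.log x ^ 3 ≤ 216 * √x := by
  have h0 : (0 : ℝ) ≤ x := by linarith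
  have h1 := Real.log_le_rpow_div h0 (show (0 : ℝ) < 1 / 6 by norm_num)
  have h2 : Real.log x ≤ 6 * x ^ ((1 : ℝ) / 6) := by
    calc Real.log x ≤ x ^ ((1 : ℝ) / 6) / (1 / 6) := h1
      _ = 6 * x ^ ((1 : ℝ) / 6) := by ring
  have h3 : 0 ≤ Real.log x := Real.log_nonneg hx
  calc Real.log x ^ 3 ≤ (6 * x ^ ((1 : ℝ) / 6)) ^ 3 := pow_le_pow_left₀ h3 h2 3
    _ = 216 * (x ^ ((1 : ℝ) / 6)) ^ (3 : ℕ) := by ring
    _ = 216 * √x := by
      rw [← Real.rpow_natCast (x ^ ((1 : ℝ) / 6)) 3, ← Real.rpow_mul h0, Real.sqrt_eq_rpow]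
      norm_num

/-- MODULE AVG. -/
theorem tAVG (hPTW : StPTW) (hINT : StINT) : Pool.Agent.Helper11.PV.StAVG := by
  intro p₀ p₁ h0 h01 h1
  obtain ⟨C, hC, n₀, hn₀⟩ := hPTW p₀ p₁ h0 h01 h1
  refine ⟨C + 216 * C + 216 * (n₀ : ℝ) ^ 2, by positivity, fun n hn => ?_⟩
  have hn1 : (1 : ℝ) ≤ n := by exact_mod_cast (by omega : 1 ≤ n)
  have hn2 : (2 : ℝ) ≤ n := by exact_mod_cast hn
  have hlog : 0 < Real.log n := Real.log_pos (by linarith)
  have hL : 0 < Real.log n ^ 3 := by positivity
  have hcube := log_cube hn1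
  have hsq : √(n : ℝ) * √(n : ℝ) = n := Real.mul_self_sqrt (by linarith)
  have hs0 : 0 ≤ √(n : ℝ) := Real.sqrt_nonneg _
  have hq : (0 : ℝ) ≤ n / Real.log n ^ 3 := by positivity
  have hvi : IntervalIntegrable (fun p : ℝ => vn p n) MeasureTheory.volume p₀ p₁ :=
    (vn_cont n).intervalIntegrable _ _
  have hlen : p₁ - p₀ ≤ 1 := by linarith
  have hlen0 : 0 ≤ p₁ - p₀ := by linarith
  by_cases hbig : n₀ ≤ n
  · obtain ⟨l, hl⟩ := hn₀ n hbig
    have hii : IntervalIntegrable (fun p : ℝ => C / Real.log n ^ 3 * II l n p + C * √(n : ℝ))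
        MeasureTheory.volume p₀ p₁ :=
      ((continuous_const.mul (II_cont l n)).add continuous_const).intervalIntegrable _ _
    have hm := intervalIntegral.integral_mono_on h01.le hvi hii
      (fun p hp => hl p hp.1 hp.2)
    have he : ∫ p in p₀..p₁, (C / Real.log n ^ 3 * II l n p + C * √(n : ℝ)) =
        C / Real.log n ^ 3 * (∫ p in p₀..p₁, II l n p) + (p₁ - p₀) * (C * √(n : ℝ)) := by
      rw [intervalIntegral.integral_add, intervalIntegral.integral_const_mul,
        intervalIntegral.integral_const, smul_eq_mul]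
      · exact ((continuous_const.mul (II_cont l n))).intervalIntegrable _ _
      · exact continuous_const.intervalIntegrable _ _
    rw [he] at hm
    have hI := hINT p₀ p₁ n l h0.le h01.le h1.le
    have hk : √(n : ℝ) ≤ 216 * (n / Real.log n ^ 3) := by
      rw [← mul_div_assoc, le_div_iff₀ hL]
      calc √(n : ℝ) * Real.log n ^ 3 ≤ √(n : ℝ) * (216 * √(n : ℝ)) :=
            mul_le_mul_of_nonneg_left hcube hs0
        _ = 216 * (√(n : ℝ) * √(n : ℝ)) := by ring
        _ = 216 * n := by rw [hsq]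
    have hA : C / Real.log n ^ 3 * (∫ p in p₀..p₁, II l n p) ≤ C * (n / Real.log n ^ 3) := by
      calc C / Real.log n ^ 3 * (∫ p in p₀..p₁, II l n p) ≤ C / Real.log n ^ 3 * n :=
            mul_le_mul_of_nonneg_left hI (by positivity)
        _ = C * (n / Real.log n ^ 3) := by ring
    have hB : (p₁ - p₀) * (C * √(n : ℝ)) ≤ 216 * C * (n / Real.log n ^ 3) := by
      calc (p₁ - p₀) * (C * √(n : ℝ)) ≤ 1 * (C * √(n : ℝ)) :=
            mul_le_mul_of_nonneg_right hlen (by positivity)
        _ ≤ 1 * (C * (216 * (n / Real.log n ^ 3))) := by gcongr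
        _ = _ := by ring
    have hD : 0 ≤ 216 * (n₀ : ℝ) ^ 2 * (n / Real.log n ^ 3) := by positivity
    calc ∫ p in p₀..p₁, vn p n ≤ _ := hm
      _ ≤ C * (n / Real.log n ^ 3) + 216 * C * (n / Real.log n ^ 3) := add_le_add hA hB
      _ ≤ _ := by linarith
  · have hlt : (n : ℝ) ≤ n₀ := by exact_mod_cast (by omega : n ≤ n₀)
    have hci : IntervalIntegrable (fun _ : ℝ => (n : ℝ) ^ 2) MeasureTheory.volume p₀ p₁ :=
      continuous_const.intervalIntegrable _ _
    have hm := intervalIntegral.integral_mono_on h01.le hvi hci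
      (fun p hp => vn_le (h0.le.trans hp.1) (hp.2.trans h1.le) n)
    rw [intervalIntegral.integral_const, smul_eq_mul] at hm
    have hss : √(n : ℝ) ≤ n := by
      rw [Real.sqrt_le_left (by linarith)]
      nlinarith
    have hk : (n : ℝ) ^ 2 ≤ 216 * (n₀ : ℝ) ^ 2 * (n / Real.log n ^ 3) := by
      rw [← mul_div_assoc, le_div_iff₀ hL]
      have h5 : (n : ℝ) * Real.log n ^ 3 ≤ 216 * (n₀ : ℝ) ^ 2 := by
        calc (n : ℝ) * Real.log n ^ 3 ≤ n * (216 * √(n : ℝ)) :=
              mul_le_mul_of_nonneg_left hcube (by linarith)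
          _ ≤ n * (216 * n) := by gcongr
          _ = 216 * (n : ℝ) ^ 2 := by ring
          _ ≤ 216 * (n₀ : ℝ) ^ 2 := by gcongr
      calc (n : ℝ) ^ 2 * Real.log n ^ 3 = n * (n * Real.log n ^ 3) := by ring
        _ ≤ n * (216 * (n₀ : ℝ) ^ 2) := mul_le_mul_of_nonneg_left h5 (by linarith)
        _ = _ := by ring
    have hE : 0 ≤ (C + 216 * C) * (n / Real.log n ^ 3) := by positivity
    calc ∫ p in p₀..p₁, vn p n ≤ (p₁ - p₀) * (n : ℝ) ^ 2 := hm
      _ ≤ 1 * (n : ℝ) ^ 2 := mul_le_mul_of_nonneg_right hlen (by positivity)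
      _ ≤ _ := by linarith

end Pool.Agent.Helper40.PV
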