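import Pool.Agent.Helper92.PV.St

/-!
# Module DTP of project PV (MP_ad0dc2_nt)

Divisibility of a `6 × 6` determinant by `P ^ 15`: the rows are combinations of the twelve vectors
`c_0, ..., c_5` and the unit vectors, with coefficients divisible by `P ^ 0, ..., P ^ 5` and `P ^ 6`; the expansion of the
determinant by multilinearity has only terms with different vectors.
-/

set_option autoImplicit false

open Finset

namespace Pool.Agent.Helper40.PV

open Pool.Agent.Helper92.PV Pool.Agent.Helper92.PU Pool.Agent.Helper92.PW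

/-- the weight of a vector -/
def wt : Fin 6 ⊕ Fin 6 → ℕ := Sum.elim (fun l => (l : ℕ)) (fun _ => 6)

lemma wt_le (s : Fin 6 ⊕ Fin 6) : wt s ≤ 6 := by
  rcases s with l | l
  · simp only [wt, Sum.elim_inl]
    omega
  · simp only [wt, Sum.elim_inr]
    exact le_rfl

lemma sum_wt : ∑ s : Fin 6 ⊕ Fin 6, (6 - wt s) = 21 := by
  simp [wt, Fintype.sum_sum_type, Fin.sum_univ_succ]

/-- six different vectors have total weight at least `15` -/
lemma wt_sum {f : Fin 6 → Fin 6 ⊕ Fin 6} (hf : Function.Injective f) : 15 ≤ ∑ i, wt (f i) := by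
  have h1 : ∑ i, (6 - wt (f i)) ≤ ∑ s : Fin 6 ⊕ Fin 6, (6 - wt s) := by
    have h2 : ∑ i, (6 - wt (f i)) = ∑ s ∈ (univ : Finset (Fin 6)).map ⟨f, hf⟩, (6 - wt s) := by
      rw [Finset.sum_map]
      rfl
    rw [h2]
    exact Finset.sum_le_sum_of_subset (Finset.subset_univ _)
  rw [sum_wt] at h1
  have h3 : ∑ i, (wt (f i) + (6 - wt (f i))) = 36 := by
    have h4 : ∀ i ∈ (univ : Finset (Fin 6)), wt (f i) + (6 - wt (f i)) = 6 := by
      intro i _
      have := wt_le (f i)
      omega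
    rw [Finset.sum_congr rfl h4]
    simp
  rw [Finset.sum_add_distrib] at h3
  omega

/-- the expansion of the determinant of a product of rectangular matrices by multilinearity in the rows -/
lemma det_expand (A : Matrix (Fin 6) (Fin 6) ℤ) (Y : Fin 6 → Fin 6 ⊕ Fin 6 → ℤ) (W : Fin 6 ⊕ Fin 6 → Fin 6 → ℤ)
    (h : ∀ i, A i = ∑ s, Y i s • W s) :
    A.det = ∑ f : Fin 6 → Fin 6 ⊕ Fin 6, (∏ i, Y i (f i)) • (Matrix.detRowAlternating fun i => W (f i)) := by
  have h1 : A.det = (Matrix.detRowAlternating : (Fin 6 → ℤ) [⋀^Fin 6]→ₗ[ℤ] ℤ).toMultilinearMap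
      (fun i => ∑ s, Y i s • W s) := by
    have h2 : (fun i => ∑ s, Y i s • W s) = A := funext fun i => (h i).symm
    rw [h2]
    rfl
  rw [h1, MultilinearMap.map_sum]
  refine Finset.sum_congr rfl fun f _ => ?_
  rw [MultilinearMap.map_smul_univ]
  rfl

theorem hDTP : StDTP := by
  intro P A X c hX hA
  choose R hR using hA
  have hrow : ∀ i, A i = ∑ s, (Sum.elim (X i) (fun j => P ^ 6 * R i j) : Fin 6 ⊕ Fin 6 → ℤ) s •
      (Sum.elim c (fun j => Pi.single j 1) : Fin 6 ⊕ Fin 6 → Fin 6 → ℤ) s := by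
    intro i
    rw [Fintype.sum_sum_type]
    funext j
    simp only [Sum.elim_inl, Sum.elim_inr, Pi.add_apply, Finset.sum_apply, Pi.smul_apply, smul_eq_mul]
    have h1 : ∑ x : Fin 6, P ^ 6 * R i x * (Pi.single x (1 : ℤ) : Fin 6 → ℤ) j = P ^ 6 * R i j := by
      rw [Finset.sum_eq_single j]
      · simp
      · intro b _ hb
        simp [Ne.symm hb]
      · intro hj
        exact absurd (Finset.mem_univ j) hj
    rw [h1, ← hR i j]
    ring
  rw [det_expand A (fun i s => (Sum.elim (X i) (fun j => P ^ 6 * R i j) : Fin 6 ⊕ Fin 6 → ℤ) s)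
    (fun s => (Sum.elim c (fun j => Pi.single j 1) : Fin 6 ⊕ Fin 6 → Fin 6 → ℤ) s) hrow]
  refine Finset.dvd_sum fun f _ => ?_
  by_cases hf : Function.Injective f
  · rw [smul_eq_mul]
    refine Dvd.dvd.mul_right ?_ _
    have h1 : P ^ (∑ i, wt (f i)) ∣
        ∏ i, (Sum.elim (X i) (fun j => P ^ 6 * R i j) : Fin 6 ⊕ Fin 6 → ℤ) (f i) := by
      rw [← Finset.prod_pow_eq_pow_sum]
      refine Finset.prod_dvd_prod_of_dvd _ _ fun i _ => ?_
      rcases f i with l | l
      · exact hX i l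
      · exact dvd_mul_right _ _
    exact (pow_dvd_pow P (wt_sum hf)).trans h1
  · have h2 : (Matrix.detRowAlternating : (Fin 6 → ℤ) [⋀^Fin 6]→ₗ[ℤ] ℤ)
        (fun i => (Sum.elim c (fun j => Pi.single j 1) : Fin 6 ⊕ Fin 6 → Fin 6 → ℤ) (f i)) = 0 := by
      refine AlternatingMap.map_eq_zero_of_not_injective _ _ fun hinj => hf fun a b hab => hinj ?_
      show (Sum.elim c (fun j => Pi.single j 1) : Fin 6 ⊕ Fin 6 → Fin 6 → ℤ) (f a) =
        (Sum.elim c (fun j => Pi.single j 1) : Fin 6 ⊕ Fin 6 → Fin 6 → ℤ) (f b)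
      rw [hab]
    rw [h2, smul_zero]
    exact dvd_zero _

end Pool.Agent.Helper40.PV
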